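import Mathlib
import Pool.Agent.Lib.H59.TupleFinal

/-!
# Almost all admissible sets have a translate in which a positive proportion is prime

There are absolute constants `c > 0` and `C, k₀, H₀` such that, for all `H ≥ H₀`, `k ≥ k₀` and `X`
with `(log H)^(C k) ≤ X ≤ H / 4` and `log X ≤ (k log log H)^2`, all but at most the proportion
`exp (-c k)` of the admissible `k`-element sets `A ⊆ {0, …, H}` have the following property: at
least `X / (log H)^(C k)` of the integers `1 ≤ n ≤ X` are such that at least `c k` of the numbers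
`n + a`, `a ∈ A`, are prime.
-/

open Finset Pool.Agent.Lib.H59

namespace Pool.Agent.Results.MP_f686a1_nt.AlmostAllAdmissibleSets

theorem result : ∃ (c : ℝ) (C k₀ H₀ : ℕ), 0 < c ∧
    ∀ H k X : ℕ, H₀ ≤ H → k₀ ≤ k → Real.log H ^ (C * k) ≤ X → 4 * X ≤ H →
      Real.log X ≤ (k * Real.log (Real.log H)) ^ 2 →
      ((poorSets k H X (c * k) (X / Real.log H ^ (C * k))).card : ℝ) ≤
        Real.exp (-(c * k)) * (admSets k H).card := by
  obtain ⟨c, C, k₀, H₀, hc, _, _, _, h⟩ := almost_all
  exact ⟨c, C, k₀, H₀, hc, h⟩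

end Pool.Agent.Results.MP_f686a1_nt.AlmostAllAdmissibleSets
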