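import Mathlib
import Pool.Agent.Lib.Helper57.PropCore

/-!
The uniform prime `k`-tuples statement on average: in the whole range `k log log x ≤ log x`, at
least the proportion `C ^ (-k)` of the admissible `k`-element sets of integers in `[0, x^(1-δ)]`
have a translate by a positive integer `n ≤ x` consisting of primes.
-/

open Finset Pool.Agent.Lib.Helper57

namespace Pool.Agent.Results.MP_f686a1_nt.ExponentialProportion

/-- A finite set of non-negative integers is admissible if for every prime `p` some residue class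
modulo `p` contains none of its elements. -/
def Admissible (A : Finset ℕ) : Prop :=
  ∀ p : ℕ, p.Prime → ∃ r : ZMod p, ∀ a ∈ A, (a : ZMod p) ≠ r

/-- Some positive integer `n ≤ x` makes all `n + a`, `a ∈ A`, prime. -/
def HasPrimeTranslate (x : ℝ) (A : Finset ℕ) : Prop :=
  ∃ n : ℕ, 1 ≤ n ∧ (n : ℝ) ≤ x ∧ ∀ a ∈ A, (n + a).Prime

/-- The admissible sets with `k` elements, all at most `x ^ (1 - δ)`. -/
def admissibleSets (x δ : ℝ) (k : ℕ) : Set (Finset ℕ) :=
  {A | A.card = k ∧ Admissible A ∧ ∀ a ∈ A, (a : ℝ) ≤ x ^ (1 - δ)}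

lemma admissible_iff (A : Finset ℕ) : Admissible A ↔ Adm A := by
  constructor
  · intro hA p hp
    have : Fact p.Prime := ⟨hp⟩
    obtain ⟨r, hr⟩ := hA p hp
    refine ⟨(-r).val, fun a ha hdvd => hr a ha ?_⟩
    rw [← ZMod.natCast_eq_zero_iff] at hdvd
    push_cast at hdvd
    rw [ZMod.natCast_zmod_val] at hdvd
    linear_combination hdvd
  · intro hA p hp
    obtain ⟨r, hr⟩ := hA p hp
    refine ⟨-(r : ZMod p), fun a ha h => hr a ha ?_⟩
    rw [← ZMod.natCast_eq_zero_iff]
    push_cast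
    rw [h]; ring

/-- **Exponential proportion.** For every `0 < δ < 1` there are `C` and `x₀` such that for all
`x ≥ x₀` and all `k ≥ 1` with `k log log x ≤ log x`, the number of admissible `k`-element sets in
`[0, x^(1-δ)]` is at most `C ^ k` times the number of those which have a translate by some positive
integer `n ≤ x` consisting of primes. -/
theorem result (δ : ℝ) (hδ : 0 < δ) (hδ1 : δ < 1) : ∃ C x₀ : ℝ, 0 < C ∧ ∀ x : ℝ, x₀ ≤ x →
    ∀ k : ℕ, 1 ≤ k → k * Real.log (Real.log x) ≤ Real.log x →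
    ((admissibleSets x δ k).ncard : ℝ) ≤
      C ^ k * (({A ∈ admissibleSets x δ k | HasPrimeTranslate x A}.ncard : ℕ) : ℝ) := by
  obtain ⟨κ, hκ⟩ : ∃ κ : ℝ, κ = 1 - δ := ⟨_, rfl⟩
  have hκ0 : 0 < κ := by linarith
  refine ⟨10 ^ 16 / κ ^ 2,
    Real.exp (48 / κ ^ 3 + 32 / δ ^ 2 + Real.exp (2 / κ) + 7000 / κ), by positivity,
    fun x hx k hk hky => ?_⟩
  have hx0 : 0 < x := lt_of_lt_of_le (Real.exp_pos _) hx
  set y := Real.log x with hy
  have hy' : 48 / κ ^ 3 + 32 / δ ^ 2 + Real.exp (2 / κ) + 7000 / κ ≤ y :=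
    (Real.le_log_iff_exp_le hx0).mpr hx
  have h1 : 0 < 48 / κ ^ 3 := by positivity
  have h2 : 0 < 32 / δ ^ 2 := by positivity
  have h3 := Real.exp_pos (2 / κ)
  have h4 : 0 < 7000 / κ := by positivity
  have hcore := prop_core κ δ y hκ0 hδ (by linarith) (by linarith) (by linarith) (by linarith)
    (by linarith) k hk hky
  have hexpy : Real.exp y = x := Real.exp_log hx0
  have hexpκ : Real.exp (κ * y) = x ^ (1 - δ) := by
    rw [Real.rpow_def_of_pos hx0, hκ]; congr 1; ring
  rw [hexpy, hexpκ] at hcore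
  set Y := ⌊x ^ (1 - δ)⌋₊ with hY
  set N := ⌊x⌋₊ with hN
  have hpow : 0 ≤ x ^ (1 - δ) := by positivity
  have hmem : ∀ A : Finset ℕ, (∀ a ∈ A, (a : ℝ) ≤ x ^ (1 - δ)) ↔ A ⊆ range (Y + 1) := by
    intro A
    constructor
    · intro h a ha
      rw [mem_range, Nat.lt_add_one_iff, hY]
      exact Nat.le_floor (h a ha)
    · intro h a ha
      have h5 := h ha
      rw [mem_range, Nat.lt_add_one_iff] at h5
      calc (a : ℝ) ≤ Y := by exact_mod_cast h5
        _ ≤ _ := Nat.floor_le hpow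
  have hadm : admissibleSets x δ k = ↑(admFin Y k) := by
    ext A
    rw [Finset.mem_coe, mem_admFin]
    show A.card = k ∧ Admissible A ∧ (∀ a ∈ A, (a : ℝ) ≤ x ^ (1 - δ)) ↔ _
    rw [hmem, admissible_iff]
    tauto
  have hgood : (↑(goodFin N Y k) : Set (Finset ℕ)) ⊆
      {A ∈ admissibleSets x δ k | HasPrimeTranslate x A} := by
    intro A hA
    rw [Finset.mem_coe, mem_goodFin] at hA
    obtain ⟨⟨hA1, hA2⟩, n, hn, hA3⟩ := hA
    rw [mem_Icc] at hn
    refine ⟨?_, n, hn.1, ?_, ?_⟩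
    · rw [hadm, Finset.mem_coe, mem_admFin]
      exact ⟨⟨hA1, hA2⟩, adm_of_subset_PS hA2 hA3⟩
    · calc (n : ℝ) ≤ N := by exact_mod_cast hn.2
        _ ≤ x := Nat.floor_le hx0.le
    · intro a ha
      have h5 := hA3 ha
      unfold PS at h5
      rw [mem_filter] at h5
      exact h5.2.1
  have hfin : {A ∈ admissibleSets x δ k | HasPrimeTranslate x A}.Finite := by
    apply Set.Finite.subset _ (Set.sep_subset _ _)
    rw [hadm]
    exact Finset.finite_toSet _
  have h5 : (goodFin N Y k).card ≤ {A ∈ admissibleSets x δ k | HasPrimeTranslate x A}.ncard := by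
    rw [← Set.ncard_coe_finset]
    exact Set.ncard_le_ncard hgood hfin
  rw [hadm, Set.ncard_coe_finset]
  refine hcore.trans ?_
  have h6 : ((goodFin N Y k).card : ℝ) ≤
      (({A ∈ admissibleSets x δ k | HasPrimeTranslate x A}.ncard : ℕ) : ℝ) := by
    exact_mod_cast h5
  rw [hadm] at h6
  exact mul_le_mul_of_nonneg_left h6 (by positivity)

end Pool.Agent.Results.MP_f686a1_nt.ExponentialProportion
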